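import Mathlib
import Pool.Agent.H759R2.Kad.Props3

open scoped ComplexOrder InnerProductSpace ComplexConjugate
open Finset

noncomputable section

namespace H759R2.Kad

universe u v

namespace H866T

variable {ι : Type} [Fintype ι]
variable {H : Type v} [NormedAddCommGroup H] [InnerProductSpace ℂ H]
variable {K : Type v} [NormedAddCommGroup K] [InnerProductSpace ℂ K]

omit [InnerProductSpace ℂ H] [InnerProductSpace ℂ K] in
/-- A coordinatewise bound gives a bound of the norm on the Hilbert space sum. -/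
theorem norm_le_of_coord (c : ℝ) (hc : 0 ≤ c) (x : HH ι H) (y : HH ι K)
    (h : ∀ i, ‖x i‖ ≤ c * ‖y i‖) : ‖x‖ ≤ c * ‖y‖ := by
  have h1 : ‖x‖ ^ 2 ≤ (c * ‖y‖) ^ 2 := by
    rw [mul_pow, PiLp.norm_sq_eq_of_L2, PiLp.norm_sq_eq_of_L2, Finset.mul_sum]
    refine Finset.sum_le_sum fun i _ => ?_
    rw [← mul_pow]
    exact pow_le_pow_left₀ (norm_nonneg _) (h i) 2
  exact le_of_sq_le_sq h1 (by positivity)

end H866T

theorem prove3_transport : K_transport.{u, v} := by
  intro B _ _ _ H _ _ _ K _ _ _ u w V S S' c C hc hC hSS hS hS' hw m hL X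
  have hu : ∀ (b : B) (x : H), u b x = S' (V (w b (V.symm (S x)))) := by
    intro b x
    have h1 : ∀ y : H, S' (S y) = y := by
      intro y
      have := congrArg (fun T : H →L[ℂ] H => T y) hSS
      simpa using this
    have h2 := hw b (V.symm (S x))
    rw [← h2]
    simp [h1]
  refine ContinuousLinearMap.opNorm_le_bound _ (by positivity) fun ξ => ?_
  -- the transported vector
  let η : HH (Fin m) K := WithLp.toLp 2 fun j => V.symm (S (ξ j))
  have hη : ‖η‖ ≤ c * ‖ξ‖ := by
    refine H866T.norm_le_of_coord c hc _ _ fun i => ?_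
    change ‖V.symm (S (ξ i))‖ ≤ _
    rw [LinearIsometryEquiv.norm_map]
    exact (S.le_opNorm _).trans (mul_le_mul_of_nonneg_right hS (norm_nonneg _))
  have hz : ‖amp u (Fin m) X ξ‖ ≤ c * ‖amp w (Fin m) X η‖ := by
    refine H866T.norm_le_of_coord c hc _ _ fun i => ?_
    have : amp u (Fin m) X ξ i = S' (V (amp w (Fin m) X η i)) := by
      rw [amp_apply, amp_apply, map_sum, map_sum]
      exact Finset.sum_congr rfl fun j _ => hu _ _
    rw [this]
    refine (S'.le_opNorm _).trans ?_
    rw [LinearIsometryEquiv.norm_map]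
    exact mul_le_mul_of_nonneg_right hS' (norm_nonneg _)
  calc ‖amp u (Fin m) X ξ‖ ≤ c * ‖amp w (Fin m) X η‖ := hz
    _ ≤ c * (C * ‖X‖ * (c * ‖ξ‖)) := by
        refine mul_le_mul_of_nonneg_left ?_ hc
        refine ((amp w (Fin m) X).le_opNorm η).trans ?_
        exact mul_le_mul (hL X) hη (norm_nonneg _) (by positivity)
    _ = c ^ 2 * C * ‖X‖ * ‖ξ‖ := by ring

end H759R2.Kad
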